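import Pool.Agent.V11307.RI.W32768
import Pool.Agent.V11307.RI.Strip

set_option autoImplicit false

/-!
# Integrality of `∑_{j<n} (154j+15) c_j (-32768)^(n-1-j) / (10 n (2n+1) C(2n,n))`
-/

namespace Pool.Agent.Results.MP_1a3e71_nt.Full

open Finset Nat

/-- `c_j = (6j)!/((3j)! (j!)^3)` -/
def c (j : ℕ) : ℚ := ((6 * j)! : ℚ) / (((3 * j)! : ℚ) * (j ! : ℚ) ^ 3)

/-- `S_n` -/
def S (n : ℕ) : ℚ := ∑ j ∈ range n, (154 * (j : ℚ) + 15) * c j * (-32768) ^ (n - 1 - j)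

/-- `a_n` -/
def a (n : ℕ) : ℚ := S n / (10 * (n : ℚ) * (2 * n + 1) * ((2 * n).choose n : ℚ))

open V11307.RI V11307.RI.S32768

theorem c_eq (j : ℕ) : c j = (c6 j : ℚ) := by
  unfold c c6
  push_cast
  rw [X_q, choose_q]
  have n1 : ((3 * j)! : ℚ) ≠ 0 := by exact_mod_cast (3 * j).factorial_ne_zero
  have n2 : ((2 * j)! : ℚ) ≠ 0 := by exact_mod_cast (2 * j).factorial_ne_zero
  have n3 : (j ! : ℚ) ≠ 0 := by exact_mod_cast j.factorial_ne_zero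
  field_simp

theorem S_Z (n : ℕ) : S n = (Z n : ℚ) := by
  unfold S Z
  push_cast
  exact sum_congr rfl fun k _ => by rw [c_eq]

theorem four_dvd_X (n : ℕ) : 4 ∣ X (n + 1) := by
  unfold X
  refine Dvd.dvd.mul_right ?_ _
  rw [show 6 * (n + 1) = 2 * (3 * (n + 1)) by ring]
  refine four_dvd_choose (by omega) fun t ht => ?_
  have h3 : 3 ∣ 2 ^ t := ⟨n + 1, ht.symm⟩
  have := Nat.prime_three.dvd_of_dvd_pow h3
  omega

/-- the `2`-part -/
theorem two_Z (n : ℕ) : ∃ o : ℤ, Odd o ∧ (2 : ℤ) ^ 2 * ((2 * (n + 1)).choose (n + 1) : ℤ) ∣ o * Z (n + 2) := by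
  have h := two_part (c := c6) (κ := 4) (a := 154) (b := 15) (m := -32768) (fun n => ?_) (by norm_num) (S := Z)
    Z_succ ?_ n
  · norm_num at h ⊢
    exact h
  · obtain ⟨w, hw⟩ := four_dvd_X n
    unfold c6
    rw [hw]
    exact ⟨(w : ℤ), by push_cast; ring⟩
  · have e : Z 2 = -471240 := by
      norm_num [Z, sum_range_succ, c6, X, Nat.choose]
    rw [e]
    norm_num

theorem cop_N (n : ℕ) : IsCoprime (2 * (n : ℤ) + 3) (16384 * ((n : ℤ) + 1)) := by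
  rw [show (16384 : ℤ) = 2 ^ 14 by norm_num]
  exact (cop2p n 14).mul_right (cop4 n)

/-- `2N+1 ∣ B_N` -/
theorem dvd_B (n : ℕ) : (2 * (n : ℤ) + 3) ∣ Bz (n + 1) := by
  have h := B_rec n
  obtain ⟨w, hw⟩ := X_fuss (n + 1)
  have hw' : (X (n + 1) : ℤ) = (2 * n + 3) * w := by rw [hw]; push_cast; ring
  rw [hw'] at h
  have h1 : (2 * (n : ℤ) + 3) ∣ 16384 * (n + 1) * Bz (n + 1) :=
    ⟨Bz (n + 2) - 2 * (-1) ^ (n + 1) * (154 * (n + 1) + 15) * w, by linear_combination -h⟩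
  exact (cop_N n).dvd_of_dvd_mul_left h1

theorem five_B (N : ℕ) (hN : 1 ≤ N) : (5 : ℤ) ∣ Bz N := by
  have h := five_dvd_B N hN
  exact (ZMod.intCast_zmod_eq_zero_iff_dvd _ 5).1 h

/-- `5 (2N+1) ∣ B_N` unless `2N+1` is a power of five -/
theorem dvd_B5 (n : ℕ) (hp : ∀ t, 2 * (n + 1) + 1 ≠ 5 ^ t) : 5 * (2 * (n : ℤ) + 3) ∣ Bz (n + 1) := by
  have hne : 2 * (n + 1) + 1 ≠ 0 := by omega
  obtain ⟨v, u, hu, huv⟩ := Nat.exists_eq_pow_mul_and_not_dvd hne 5 (by norm_num)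
  have h1 := dvd_B n
  have e0 : (2 * (n : ℤ) + 3) = 5 ^ v * u := by
    have : ((2 * (n + 1) + 1 : ℕ) : ℤ) = ((5 ^ v * u : ℕ) : ℤ) := by rw [huv]
    push_cast at this
    linear_combination this
  have h5v : (5 : ℤ) ^ (v + 1) ∣ Bz (n + 1) := by
    rcases Nat.eq_zero_or_pos v with hv | hv
    · rw [hv]
      simpa using five_B (n + 1) (by omega)
    · have h := B_rec n
      have hx : ((5 : ℤ) ^ (v + 1)) ∣ X (n + 1) := by
        have := val_X_ge (N := n + 1) (v := v) (by omega) ⟨u, huv⟩ hp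
        exact_mod_cast this
      have hb : ((5 : ℤ) ^ (v + 1)) ∣ (2 * ((n : ℤ) + 1) + 1) * Bz (n + 2) := by
        obtain ⟨w, hw⟩ := five_B (n + 2) (by omega)
        refine ⟨u * w, ?_⟩
        rw [hw, pow_succ]
        linear_combination 5 * w * e0
      have h3 : ((5 : ℤ) ^ (v + 1)) ∣ 16384 * (n + 1) * Bz (n + 1) := by
        have h4 : 16384 * ((n : ℤ) + 1) * Bz (n + 1) = (2 * ((n : ℤ) + 1) + 1) * Bz (n + 2) -
            2 * (-1) ^ (n + 1) * (154 * (n + 1) + 15) * X (n + 1) := by linear_combination -h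
        rw [h4]
        exact dvd_sub hb (Dvd.dvd.mul_left hx _)
      have h5 : IsCoprime ((5 : ℤ) ^ (v + 1)) (16384 * ((n : ℤ) + 1)) := by
        apply IsCoprime.pow_left
        have h6 : (5 : ℤ) ∣ (2 * (n : ℤ) + 3) := by
          rw [e0]
          exact Dvd.dvd.mul_right (dvd_pow_self 5 (by omega)) _
        exact (cop_N n).of_isCoprime_of_dvd_left h6
      exact h5.dvd_of_dvd_mul_left h3
  have hcop : IsCoprime ((5 : ℤ) ^ (v + 1)) (u : ℤ) := by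
    apply IsCoprime.pow_left
    have : Nat.Coprime 5 u := (Nat.Prime.coprime_iff_not_dvd Nat.prime_five).2 hu
    exact_mod_cast Nat.isCoprime_iff_coprime.2 this
  have hu' : (u : ℤ) ∣ Bz (n + 1) := (Dvd.intro_left _ e0.symm).trans h1
  have := hcop.mul_dvd h5v hu'
  rwa [show (5 : ℤ) ^ (v + 1) * u = 5 * (2 * (n : ℤ) + 3) by rw [e0, pow_succ]; ring] at this

/-- `4 D ∣ Z` -/
theorem four_D (n : ℕ) : ((4 * D (n + 1) : ℕ) : ℤ) ∣ Z (n + 2) := by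
  have h1 := Z_closed (n + 1)
  obtain ⟨z, hz⟩ := dvd_B (n + 1)
  rw [show n + 1 + 1 = n + 2 by ring] at *
  have h2 : (((2 * (n + 1)).choose (n + 1) * ((2 * (n + 1) + 1) * (2 * (n + 1) + 3)) : ℕ) : ℤ) ∣ 2 ^ 1 * Z (n + 2) := by
    refine ⟨(-1) ^ (n + 1) * z, ?_⟩
    rw [hz] at h1
    push_cast at h1 ⊢
    linear_combination h1
  have h3 := strip_gen (i := 2) (choose_pos' (n + 1)).ne' (Odd.mul ⟨n + 1, rfl⟩ ⟨n + 2, by ring⟩) h2 (two_Z n)
  have e : 2 ^ 2 * ((2 * (n + 1)).choose (n + 1) * ((2 * (n + 1) + 1) * (2 * (n + 1) + 3))) = 4 * D (n + 1) := by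
    unfold D; ring
  rwa [e] at h3

/-- `20 D ∣ Z` -/
theorem twenty_D (n : ℕ) (hp : ∀ t, 2 * (n + 2) + 1 ≠ 5 ^ t) : ((20 * D (n + 1) : ℕ) : ℤ) ∣ Z (n + 2) := by
  have h1 := Z_closed (n + 1)
  obtain ⟨z, hz⟩ := dvd_B5 (n + 1) hp
  rw [show n + 1 + 1 = n + 2 by ring] at *
  have h2 : (((2 * (n + 1)).choose (n + 1) * (5 * ((2 * (n + 1) + 1) * (2 * (n + 1) + 3))) : ℕ) : ℤ) ∣
      2 ^ 1 * Z (n + 2) := by
    refine ⟨(-1) ^ (n + 1) * z, ?_⟩
    rw [hz] at h1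
    push_cast at h1 ⊢
    linear_combination h1
  have h3 := strip_gen (i := 2) (choose_pos' (n + 1)).ne' (Odd.mul (by decide) (Odd.mul ⟨n + 1, rfl⟩ ⟨n + 2, by ring⟩)) h2
    (two_Z n)
  have e : 2 ^ 2 * ((2 * (n + 1)).choose (n + 1) * (5 * ((2 * (n + 1) + 1) * (2 * (n + 1) + 3)))) = 20 * D (n + 1) := by
    unfold D; ring
  rwa [e] at h3

theorem not_twenty_D (n t : ℕ) (ht : 2 * (n + 2) + 1 = 5 ^ t) : ¬ ((20 * D (n + 1) : ℕ) : ℤ) ∣ Z (n + 2) := by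
  rintro ⟨z, hz⟩
  have h1 := Z_closed (n + 1)
  rw [show n + 1 + 1 = n + 2 by ring, hz] at h1
  have hC : ((2 * (n + 1)).choose (n + 1) : ℤ) ≠ 0 := by exact_mod_cast (choose_pos' (n + 1)).ne'
  have hodd : (2 * ((n : ℤ) + 1) + 1) ≠ 0 := by positivity
  have hs : ((-1 : ℤ) ^ (n + 1)) * (-1) ^ (n + 1) = 1 := by rw [← mul_pow]; norm_num
  have h2 : Bz (n + 2) = 5 * (2 * (n : ℤ) + 5) * (8 * (-1) ^ (n + 1) * z) := by
    have h3 : ((-1) ^ (n + 1) * Bz (n + 2)) = 40 * (2 * (n : ℤ) + 5) * z := by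
      apply mul_left_cancel₀ (mul_ne_zero hodd hC)
      unfold D at h1
      push_cast at h1
      linear_combination -h1
    linear_combination (-1) ^ (n + 1) * h3 - Bz (n + 2) * hs
  have e5 : (2 * (n : ℤ) + 5) = 5 ^ t := by
    have : ((2 * (n + 2) + 1 : ℕ) : ℤ) = ((5 ^ t : ℕ) : ℤ) := by rw [ht]
    push_cast at this
    linear_combination this
  have ht1 : 1 ≤ t := by
    by_contra hh
    have : t = 0 := by omega
    rw [this] at ht
    omega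
  have h := B_rec (n + 1)
  obtain ⟨w, hw⟩ := five_B (n + 3) (by omega)
  rw [show n + 1 + 2 = n + 3 by ring, show n + 1 + 1 = n + 2 by ring, hw, h2] at h
  have h4 : ((5 : ℤ) ^ (t + 1)) ∣ (2 * (154 * ((n : ℤ) + 2) + 15)) * X (n + 2) := by
    have hs2 : ((-1 : ℤ) ^ (n + 2)) * (-1) ^ (n + 2) = 1 := by rw [← mul_pow]; norm_num
    refine ⟨(-1) ^ (n + 2) * (w - 16384 * (n + 2) * (8 * (-1) ^ (n + 1) * z)), ?_⟩
    push_cast at h
    rw [pow_succ, ← e5]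
    linear_combination (-((-1 : ℤ) ^ (n + 2))) * h - 2 * (154 * ((n : ℤ) + 2) + 15) * X (n + 2) * hs2
  have h5 : IsCoprime ((5 : ℤ) ^ (t + 1)) (2 * (154 * ((n : ℤ) + 2) + 15)) := by
    apply IsCoprime.pow_left
    obtain ⟨x, hx⟩ : (5 : ℤ) ∣ (2 * (n : ℤ) + 5) := by rw [e5]; exact dvd_pow_self 5 (by omega)
    -- 2 (154 (n+2) + 15) = 154 (2n+5) - 124
    refine ⟨25 - 154 * x, 1, ?_⟩
    linear_combination 154 * hx
  have h6 := h5.dvd_of_dvd_mul_left h4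
  have h7 : 5 ^ (t + 1) ∣ X (n + 2) := by exact_mod_cast h6
  exact val_X_eq ht h7

/-- weights -/
def W (k : ℕ) : ℚ := (154 * (k : ℚ) + 15) * c6 k

theorem c6_succ (k : ℕ) : (c6 (k + 1) : ℚ) * ((k : ℚ) + 1) ^ 3 = 24 * (2 * k + 1) * (6 * k + 1) * (6 * k + 5) * c6 k := by
  rw [← c_eq, ← c_eq]
  unfold c
  have e1 : ((6 * (k + 1))! : ℚ) = (6 * k + 6) * ((6 * k + 5) * ((6 * k + 4) * ((6 * k + 3) * ((6 * k + 2) *
      ((6 * k + 1) * ((6 * k)! : ℚ)))))) := by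
    rw [show 6 * (k + 1) = 6 * k + 1 + 1 + 1 + 1 + 1 + 1 by ring, Nat.factorial_succ, Nat.factorial_succ,
      Nat.factorial_succ, Nat.factorial_succ, Nat.factorial_succ, Nat.factorial_succ]
    push_cast; ring
  have e2 : ((3 * (k + 1))! : ℚ) = (3 * k + 3) * ((3 * k + 2) * ((3 * k + 1) * ((3 * k)! : ℚ))) := by
    rw [show 3 * (k + 1) = 3 * k + 1 + 1 + 1 by ring, Nat.factorial_succ, Nat.factorial_succ,
      Nat.factorial_succ]
    push_cast; ring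
  have e4 : ((k + 1)! : ℚ) = (k + 1) * (k ! : ℚ) := by
    rw [Nat.factorial_succ]; push_cast; ring
  rw [e1, e2, e4]
  have n1 : ((3 * k)! : ℚ) ≠ 0 := by exact_mod_cast (3 * k).factorial_ne_zero
  have n2 : (k ! : ℚ) ≠ 0 := by exact_mod_cast k.factorial_ne_zero
  have n3 : (3 * (k : ℚ) + 3) ≠ 0 := by positivity
  have n4 : (3 * (k : ℚ) + 2) ≠ 0 := by positivity
  have n5 : (3 * (k : ℚ) + 1) ≠ 0 := by positivity
  have n6 : ((k : ℚ) + 1) ≠ 0 := by positivity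
  field_simp
  ring

theorem c6_pos (k : ℕ) : (0 : ℚ) < c6 k := by
  have h1 := X_pos k
  have h2 := choose_pos' k
  unfold c6
  exact_mod_cast Nat.mul_pos h2 h1

theorem W_le (k : ℕ) : W (k + 2) ≤ 3456 * W (k + 1) := by
  have h := c6_succ (k + 1)
  have hp := c6_pos (k + 1)
  have h3 : (0 : ℚ) < ((k : ℚ) + 2) ^ 3 := by positivity
  unfold W
  push_cast at h ⊢
  have h4 : (c6 (k + 2) : ℚ) * ((k : ℚ) + 2) ^ 3 =
      24 * (2 * (k + 1) + 1) * (6 * (k + 1) + 1) * (6 * (k + 1) + 5) * c6 (k + 1) := by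
    rw [← h, show k + 1 + 1 = k + 2 by ring]; ring
  rw [← mul_le_mul_iff_of_pos_right h3]
  have h5 : (154 * ((k : ℚ) + 2) + 15) * c6 (k + 2) * ((k : ℚ) + 2) ^ 3 =
      ((154 * ((k : ℚ) + 2) + 15) * (24 * (2 * (k + 1) + 1) * (6 * (k + 1) + 1) * (6 * (k + 1) + 5))) * c6 (k + 1) := by
    rw [mul_assoc, h4]; ring
  rw [h5]
  have h6 : (154 * ((k : ℚ) + 2) + 15) * (24 * (2 * (k + 1) + 1) * (6 * (k + 1) + 1) * (6 * (k + 1) + 5)) ≤
      3456 * (154 * (k + 1) + 15) * ((k : ℚ) + 2) ^ 3 := by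
    have hk : (0 : ℚ) ≤ k := by positivity
    nlinarith [mul_nonneg hk hk, mul_nonneg hk (mul_nonneg hk hk), mul_nonneg (mul_nonneg hk hk) (mul_nonneg hk hk)]
  calc _ ≤ (3456 * (154 * (k + 1) + 15) * ((k : ℚ) + 2) ^ 3) * c6 (k + 1) :=
        mul_le_mul_of_nonneg_right h6 hp.le
    _ = _ := by ring

/-- **Full answer.** -/
theorem result : ∀ n : ℕ, 1 < n →
    ((¬ ∃ m : ℕ, 1 ≤ m ∧ 2 * n + 1 = 5 ^ m) → ∃ z : ℤ, 0 < z ∧ (-1) ^ (n - 1) * a n = z) ∧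
    ((∃ m : ℕ, 1 ≤ m ∧ 2 * n + 1 = 5 ^ m) → ∃ z : ℤ, 5 * a n = z ∧ ¬ 5 ∣ z) := by
  intro n hn
  obtain ⟨k, rfl⟩ : ∃ k, n = k + 2 := ⟨n - 2, by omega⟩
  have hD : (0 : ℚ) < (D (k + 1) : ℚ) := by exact_mod_cast D_pos (k + 1)
  have h2 := D_q' (k + 1)
  rw [show k + 1 + 1 = k + 2 by ring] at h2
  have h3 : 10 * ((k + 2 : ℕ) : ℚ) * (2 * ((k + 2 : ℕ) : ℚ) + 1) * ((2 * (k + 2)).choose (k + 2) : ℚ) =
      20 * (D (k + 1) : ℚ) := by linear_combination 10 * h2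
  have ha : a (k + 2) * (20 * (D (k + 1) : ℚ)) = (Z (k + 2) : ℚ) := by
    rw [a, h3, S_Z]
    field_simp
  refine ⟨fun hp => ?_, fun ⟨t, _, ht⟩ => ?_⟩
  · have hp' : ∀ t, 2 * (k + 2) + 1 ≠ 5 ^ t := by
      intro t ht
      apply hp
      refine ⟨t, ?_, ht⟩
      by_contra hh
      have : t = 0 := by omega
      rw [this] at ht
      omega
    obtain ⟨z, hz⟩ := twenty_D k hp'
    have hz' : (Z (k + 2) : ℚ) = 20 * (D (k + 1) : ℚ) * z := by exact_mod_cast hz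
    have ha2 : a (k + 2) = z := by
      have h20 : (20 * (D (k + 1) : ℚ)) ≠ 0 := by positivity
      apply mul_right_cancel₀ h20
      rw [ha, hz']; ring
    have hs := (sign_gen (S := S) (W := W) (m := 32768) (C := 3456) (by norm_num)
      (fun n => by rw [S_Z, S_Z, Z_succ, W]; push_cast; ring)
      (fun n => by have := c6_pos n
                   unfold W; positivity)
      W_le (by norm_num) (by norm_num [S, c, Nat.factorial])
      (by norm_num [W, c6, X, Nat.choose, S, c, Nat.factorial]) (k + 1)).1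
    rw [show k + 2 - 1 = k + 1 by omega]
    refine ⟨(-1) ^ (k + 1) * z, ?_, by rw [ha2]; push_cast; ring⟩
    rw [show k + 1 + 1 = k + 2 by ring, S_Z, hz'] at hs
    have h4 : (-1 : ℚ) ^ (k + 1) * (20 * (D (k + 1) : ℚ) * z) = ((-1) ^ (k + 1) * z) * (20 * (D (k + 1) : ℚ)) := by ring
    rw [h4] at hs
    have h5 : (0 : ℚ) < (-1) ^ (k + 1) * z := (mul_pos_iff_of_pos_right (by positivity)).1 hs
    exact_mod_cast h5
  · obtain ⟨z, hz⟩ := four_D k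
    have hz' : (Z (k + 2) : ℚ) = 4 * (D (k + 1) : ℚ) * z := by exact_mod_cast hz
    have ha2 : 5 * a (k + 2) = z := by
      have h4 : (4 * (D (k + 1) : ℚ)) ≠ 0 := by positivity
      apply mul_right_cancel₀ h4
      linear_combination ha + hz'
    refine ⟨z, ha2, ?_⟩
    rintro ⟨w, rfl⟩
    apply not_twenty_D k t ht
    refine ⟨w, ?_⟩
    rw [hz]
    push_cast
    ring

end Pool.Agent.Results.MP_1a3e71_nt.Full
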